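import Pool.Agent.H65.BM.Fin
import Pool.Agent.H65.BM.J
import Pool.Agent.H65.BM.OPQ
import Pool.Agent.H65.BM.CI
import Pool.Agent.H65.BM.BAL
import Pool.Agent.H65.BM.U
import Pool.Agent.H65.BM.T1
import Pool.Agent.H65.BM.T2
import Pool.Agent.H65.BM.COT
import Pool.Agent.H65.BM.NULL
import Pool.Agent.H65.BM.POS
import Pool.Agent.H65.BM.EQ
import Pool.Agent.H65.BM.WALK
import Pool.Agent.H65.BM.M1
import Pool.Agent.H65.BM.M2
import Pool.Agent.H65.BM.DAT
import Pool.Agent.H65.BM.DUS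
import Pool.Agent.H65.BM.DUC
import Pool.Agent.H65.BM.DKQ
import Pool.Agent.H65.BM.NORMK
import Pool.Agent.H65.BM.AUER

/-!
# Banach-Mazur rotation problem: contractive perturbations of the identity of finite rank

Let `E` be a separable infinite-dimensional superreflexive real Banach space whose isometry group
has dense orbits on the unit sphere. If some proper subspace of finite codimension is the range of
a norm one projection, then `E` is isometric to a Hilbert space. More generally it is enough that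
`‖1 - K‖ ≤ 1` for one nuclear operator `K ≠ 0`, or that `(‖1 - K‖ - 1) / ‖K‖` is not bounded away
from zero on the operators `K` of rank at most `n`, for one `n`.
-/

set_option autoImplicit false

namespace Pool.Agent.Results.MP_cc72b1_an.FiniteCodimension

open Filter Topology

/-- `E` is linearly isometric to a Hilbert space -/
def IsHilbert (E : Type) [NormedAddCommGroup E] [NormedSpace ℝ E] : Prop :=
  ∃ (H : Type) (_ : NormedAddCommGroup H) (_ : InnerProductSpace ℝ H) (_ : CompleteSpace H),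
    Nonempty (E ≃ₗᵢ[ℝ] H)

/-- for some `1 < p ≤ 2 ≤ q` the space `E` is linearly isomorphic to a space which is uniformly
smooth of power type `p`, and to a space which is uniformly convex of power type `q`; by the
theorems of Enflo and Pisier this is superreflexivity -/
def SuperReflexive (E : Type) [NormedAddCommGroup E] [NormedSpace ℝ E] : Prop :=
  ∃ p q : ℝ, 1 < p ∧ p ≤ 2 ∧ 2 ≤ q ∧
    (∃ (F : Type) (_ : NormedAddCommGroup F) (_ : NormedSpace ℝ F) (K : ℝ),
      Nonempty (E ≃L[ℝ] F) ∧ ∀ x w : F, ‖x‖ = 1 → ‖x + w‖ + ‖x - w‖ ≤ 2 + K * ‖w‖ ^ p) ∧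
    ∃ (F : Type) (_ : NormedAddCommGroup F) (_ : NormedSpace ℝ F) (c : ℝ), 0 < c ∧
      Nonempty (E ≃L[ℝ] F) ∧
      ∀ x w : F, c * ‖w‖ ^ q ≤ ‖x + w‖ ^ q + ‖x - w‖ ^ q - 2 * ‖x‖ ^ q

/-- `K` is nuclear and its nuclear norm is at most `P` -/
def NuclearLE {E : Type} [NormedAddCommGroup E] [NormedSpace ℝ E] (K : E →L[ℝ] E) (P : ℝ) : Prop :=
  ∃ (f : ℕ → E →L[ℝ] ℝ) (e : ℕ → E), Summable (fun i => ‖f i‖ * ‖e i‖) ∧
    ∑' i, ‖f i‖ * ‖e i‖ ≤ P ∧ ∀ y, HasSum (fun i => f i y • e i) (K y)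

/-- the stubs are proved -/
theorem stubs : Pool.Agent.H65.BM.Stubs where
  j := Pool.Agent.H65.BM.j
  opq := Pool.Agent.H65.BM.opq
  ci := Pool.Agent.H65.BM.ci
  t1 := Pool.Agent.H65.BM.t1 Pool.Agent.H65.BM.u
  t2 := Pool.Agent.H65.BM.t2
  cot := Pool.Agent.H65.BM.cot
  null := Pool.Agent.H65.BM.null
  pos := Pool.Agent.H65.BM.pos
  eq := Pool.Agent.H65.BM.eq
  walk := Pool.Agent.H65.BM.walk
  m1 := Pool.Agent.H65.BM.m1 Pool.Agent.H65.BM.u
  m2 := Pool.Agent.H65.BM.m2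
  dat := Pool.Agent.H65.BM.dat
  dus := Pool.Agent.H65.BM.dus
  duc := Pool.Agent.H65.BM.duc
  dkq := Pool.Agent.H65.BM.dkq

theorem result :
    ∀ (E : Type) [NormedAddCommGroup E] [NormedSpace ℝ E] [CompleteSpace E]
      [TopologicalSpace.SeparableSpace E],
      ¬ FiniteDimensional ℝ E →
      (∀ x y : E, ‖x‖ = 1 → ‖y‖ = 1 → ∀ ε : ℝ, 0 < ε → ∃ T : E ≃ₗᵢ[ℝ] E, ‖T x - y‖ < ε) →
      SuperReflexive E →
      List.TFAE [
        -- `E` is a Hilbert space
        IsHilbert E,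
        -- a norm one projection onto a proper subspace of finite codimension
        ∃ P : E →L[ℝ] E, (∀ x, P (P x) = P x) ∧ ‖P‖ ≤ 1 ∧ P ≠ ContinuousLinearMap.id ℝ E ∧
          FiniteDimensional ℝ (LinearMap.ker (P : E →ₗ[ℝ] E)),
        -- a contractive nuclear perturbation of the identity
        ∃ K : E →L[ℝ] E, K ≠ 0 ∧ (∃ P : ℝ, NuclearLE K P) ∧
          ‖ContinuousLinearMap.id ℝ E - K‖ ≤ 1,
        -- no uniform lower bound for the operators of rank at most `n`, for one `n`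
        ∃ n : ℕ, ∀ c : ℝ, 0 < c → ∃ K : E →L[ℝ] E,
          FiniteDimensional ℝ (LinearMap.range (K : E →ₗ[ℝ] E)) ∧
          Module.finrank ℝ (LinearMap.range (K : E →ₗ[ℝ] E)) ≤ n ∧
          ‖ContinuousLinearMap.id ℝ E - K‖ < 1 + c * ‖K‖,
        -- the same for nuclear operators
        ∃ P : ℝ, ∀ c : ℝ, 0 < c → ∃ K : E →L[ℝ] E, NuclearLE K (P * ‖K‖) ∧
          ‖ContinuousLinearMap.id ℝ E - K‖ < 1 + c * ‖K‖] := by
  intro E _ _ _ _ hinf hA ⟨p, q, hp1, hp2, hq, ⟨F, _, _, K₁, ⟨Φ⟩, hF⟩, G, _, _, c₁, hc₁, ⟨Ψ⟩, hG⟩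
  have hnt : Nontrivial E := by
    by_contra h
    rw [not_nontrivial_iff_subsingleton] at h
    exact hinf inferInstance
  obtain ⟨e₀, he₀⟩ : ∃ e : E, ‖e‖ = 1 := exists_norm_eq E zero_le_one
  have hid : ‖ContinuousLinearMap.id ℝ E‖ = 1 := ContinuousLinearMap.norm_id
  -- smoothness and convexity pass to the norm of `E`
  have hUS : Pool.Agent.H65.BM.US E := by
    obtain ⟨K, hK, h⟩ := N314.OP.Mod.smooth_AT hA Φ hp1.le hF
    exact ⟨p, K, hp1, hp2, hK, h⟩
  have hUC : Pool.Agent.H65.BM.UC E := by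
    obtain ⟨c, hc, h⟩ := N314.OP.Mod.convex_AT hA Ψ (by linarith) hc₁ hG
    exact ⟨q, c, hq, hc, h⟩
  tfae_have 5 → 1 := by
    rintro ⟨P, hP⟩
    have hKQ : Pool.Agent.H65.BM.KQ E := Pool.Agent.H65.BM.normk E (2 * (|P| + 1)) (by positivity)
      (Pool.Agent.H65.BM.trunc hP hid.ge)
    exact ⟨E, inferInstance,
      InnerProductSpace.ofNorm ℝ (Pool.Agent.H65.BM.main stubs E hA hinf hUS hUC hKQ),
      inferInstance, ⟨LinearIsometryEquiv.refl ℝ E⟩⟩
  tfae_have 4 → 5 := by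
    rintro ⟨n, hn⟩
    refine ⟨n * 2 ^ n, fun c hc => ?_⟩
    obtain ⟨K, h1, h2, h3⟩ := hn c hc
    exact ⟨K, Pool.Agent.H65.BM.nuclear_rank Pool.Agent.H65.BM.auer K h1 h2, h3⟩
  tfae_have 3 → 5 := by
    rintro ⟨K, hK0, ⟨P, hP⟩, hK⟩
    have hK1 : 0 < ‖K‖ := norm_pos_iff.2 hK0
    refine ⟨P / ‖K‖, fun c hc => ⟨K, ?_, ?_⟩⟩
    · rw [div_mul_cancel₀ _ hK1.ne']
      exact hP
    · have : 0 < c * ‖K‖ := by positivity
      linarith
  tfae_have 2 → 4 := by
    rintro ⟨P, hPP, hP1, hPid, hfd⟩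
    refine ⟨Module.finrank ℝ (LinearMap.ker (P : E →ₗ[ℝ] E)), fun c hc =>
      ⟨ContinuousLinearMap.id ℝ E - P, ?_, ?_, ?_⟩⟩
    · have h1 : LinearMap.range ((ContinuousLinearMap.id ℝ E - P : E →L[ℝ] E) : E →ₗ[ℝ] E) ≤
          LinearMap.ker (P : E →ₗ[ℝ] E) := by
        rintro _ ⟨x, rfl⟩
        rw [LinearMap.mem_ker]
        show P (x - P x) = 0
        rw [map_sub, hPP, sub_self]
      exact Submodule.finiteDimensional_of_le h1
    · have h1 : LinearMap.range ((ContinuousLinearMap.id ℝ E - P : E →L[ℝ] E) : E →ₗ[ℝ] E) ≤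
          LinearMap.ker (P : E →ₗ[ℝ] E) := by
        rintro _ ⟨x, rfl⟩
        rw [LinearMap.mem_ker]
        show P (x - P x) = 0
        rw [map_sub, hPP, sub_self]
      exact Submodule.finrank_mono h1
    · have h1 : 0 < ‖ContinuousLinearMap.id ℝ E - P‖ := by
        rw [norm_pos_iff, sub_ne_zero]
        exact hPid.symm
      have h2 : 0 < c * ‖ContinuousLinearMap.id ℝ E - P‖ := by positivity
      rw [sub_sub_cancel]
      linarith
  -- the converse: the orthogonal projection onto a hyperplane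
  have conv : IsHilbert E → ∃ f : StrongDual ℝ E, f e₀ = 1 ∧ ∀ x, ‖x - f x • e₀‖ ≤ ‖x‖ := by
    rintro ⟨H', _, _, _, ⟨Θ⟩⟩
    exact N314.OP.hilbert_proj Θ he₀
  have hne0 : e₀ ≠ 0 := by
    intro h
    rw [h, norm_zero] at he₀
    exact zero_ne_one he₀
  tfae_have 1 → 2 := by
    intro h
    obtain ⟨f, h1, hle⟩ := conv h
    have hv : ∀ x, (ContinuousLinearMap.id ℝ E - f.smulRight e₀) x = x - f x • e₀ := fun x => rfl
    refine ⟨ContinuousLinearMap.id ℝ E - f.smulRight e₀, fun x => ?_, ?_, ?_, ?_⟩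
    · rw [hv, hv, map_sub, map_smul, h1, smul_eq_mul, mul_one, sub_self, zero_smul, sub_zero]
    · refine ContinuousLinearMap.opNorm_le_bound _ zero_le_one fun x => ?_
      rw [hv, one_mul]
      exact hle x
    · intro h
      have h2 : (ContinuousLinearMap.id ℝ E - f.smulRight e₀) e₀ = e₀ := by rw [h]; rfl
      rw [hv, h1, one_smul, sub_self] at h2
      exact hne0 h2.symm
    · have h2 : LinearMap.ker ((ContinuousLinearMap.id ℝ E - f.smulRight e₀ : E →L[ℝ] E) :
          E →ₗ[ℝ] E) ≤ Submodule.span ℝ {e₀} := by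
        intro x hx
        rw [LinearMap.mem_ker] at hx
        have hx' : x - f x • e₀ = 0 := hx
        rw [Submodule.mem_span_singleton]
        exact ⟨f x, (sub_eq_zero.1 hx').symm⟩
      exact Submodule.finiteDimensional_of_le h2
  tfae_have 1 → 3 := by
    intro h
    obtain ⟨f, h1, hle⟩ := conv h
    refine ⟨f.smulRight e₀, ?_, ⟨∑ i : Fin 1, ‖f‖ * ‖e₀‖, ?_⟩, ?_⟩
    · intro h0
      have h2 : f.smulRight e₀ e₀ = e₀ := by
        rw [ContinuousLinearMap.smulRight_apply, h1, one_smul]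
      rw [h0] at h2
      exact hne0 h2.symm
    · have h2 := Pool.Agent.H65.BM.nuclear_opr (n := 1) (fun _ => f) (fun _ => e₀)
      have h3 : Pool.Agent.H65.BM.opr (n := 1) (fun _ => f) (fun _ => e₀) = f.smulRight e₀ := by
        simp [Pool.Agent.H65.BM.opr]
      rw [h3] at h2
      exact h2
    · refine ContinuousLinearMap.opNorm_le_bound _ zero_le_one fun x => ?_
      rw [one_mul]
      exact hle x
  tfae_finish

end Pool.Agent.Results.MP_cc72b1_an.FiniteCodimension
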